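import Pool.Agent.Lib_helper85.VM.Defs

/-!
# MP_5582d1_ag: block LP, the parallelogram law for local heights, good reduction
-/

set_option autoImplicit false

namespace Pool.Agent.VM

open scoped Classical

/-- `c ≤ u x`, or `x = 0` -/
private def LB {F : Type} [Field F] (u : QV F) (c : ℚ) (x : F) : Prop := x = 0 ∨ c ≤ u.v x

/-- `min (0, u x)` -/
private noncomputable def lm {F : Type} [Field F] (u : QV F) (x : F) : ℚ :=
  if x = 0 then 0 else min 0 (u.v x)

section

variable {F : Type} [Field F] {u : QV F}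

private theorem LB_zero (c : ℚ) : LB u c 0 := Or.inl rfl

private theorem LB_iff {c : ℚ} {x : F} (hx : x ≠ 0) : LB u c x ↔ c ≤ u.v x := by
  unfold LB; simp [hx]

private theorem LB_mono {c d : ℚ} {x : F} (h : LB u c x) (hd : d ≤ c) : LB u d x :=
  h.imp id (fun h => hd.trans h)

private theorem LB_add {c : ℚ} {x y : F} (hx : LB u c x) (hy : LB u c y) : LB u c (x + y) := by
  by_cases hx0 : x = 0
  · rw [hx0, zero_add]; exact hy
  by_cases hy0 : y = 0
  · rw [hy0, add_zero]; exact hx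
  by_cases hxy : x + y = 0
  · exact Or.inl hxy
  · exact Or.inr ((le_min ((LB_iff hx0).mp hx) ((LB_iff hy0).mp hy)).trans (u.add hx0 hy0 hxy))

private theorem LB_neg {c : ℚ} {x : F} (hx : LB u c x) : LB u c (-x) := by
  rcases hx with h | h
  · left; rw [h, neg_zero]
  · right; rw [u.neg]; exact h

private theorem LB_sub {c : ℚ} {x y : F} (hx : LB u c x) (hy : LB u c y) : LB u c (x - y) := by
  rw [sub_eq_add_neg]
  exact LB_add hx (LB_neg hy)

private theorem LB_mul {c d : ℚ} {x y : F} (hx : LB u c x) (hy : LB u d y) :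
    LB u (c + d) (x * y) := by
  by_cases hx0 : x = 0
  · left; rw [hx0, zero_mul]
  by_cases hy0 : y = 0
  · left; rw [hy0, mul_zero]
  · right
    rw [u.mul hx0 hy0]
    exact add_le_add ((LB_iff hx0).mp hx) ((LB_iff hy0).mp hy)

private theorem LB_one : LB u 0 (1 : F) := Or.inr u.one.ge

private theorem LB_nat (n : ℕ) : LB u 0 (n : F) := by
  induction n with
  | zero => rw [Nat.cast_zero]; exact LB_zero 0
  | succ n ih => rw [Nat.cast_succ]; exact LB_add ih LB_one

/-- division by a nonzero factor -/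
private theorem LB_of_mul {c : ℚ} {x y : F} (hx : x ≠ 0) (h : LB u c (x * y)) :
    LB u (c - u.v x) y := by
  by_cases hy : y = 0
  · rw [hy]; exact LB_zero _
  · rw [LB_iff (mul_ne_zero hx hy), u.mul hx hy] at h
    rw [LB_iff hy]
    linarith

private theorem LB_mul' {c : ℚ} {x y : F} (hx : x ≠ 0) (h : LB u c y) :
    LB u (c + u.v x) (x * y) := by
  have := LB_mul (u := u) ((LB_iff (u := u) (c := u.v x) hx).mpr le_rfl) h
  rwa [add_comm] at this

private theorem LB_pow4 {c : ℚ} {x : F} (h : LB u (4 * c) (x ^ 4)) : LB u c x := by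
  by_cases hx : x = 0
  · rw [hx]; exact LB_zero _
  · rw [LB_iff (pow_ne_zero 4 hx), u.pow hx] at h
    rw [LB_iff hx]
    push_cast at h
    linarith

private theorem lm_le (x : F) : lm u x ≤ 0 := by
  unfold lm
  split_ifs
  · exact le_rfl
  · exact min_le_left _ _

private theorem LB_lm (x : F) : LB u (lm u x) x := by
  by_cases hx : x = 0
  · left; exact hx
  · right; unfold lm; rw [if_neg hx]; exact min_le_right _ _

private theorem lm_cases (x : F) : (lm u x = 0 ∧ LB u 0 x) ∨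
    (x ≠ 0 ∧ lm u x = u.v x ∧ u.v x < 0) := by
  by_cases hx : x = 0
  · left
    exact ⟨by unfold lm; rw [if_pos hx], Or.inl hx⟩
  · rcases le_or_gt 0 (u.v x) with h | h
    · left
      exact ⟨by unfold lm; rw [if_neg hx, min_eq_left h], Or.inr h⟩
    · right
      exact ⟨hx, by unfold lm; rw [if_neg hx, min_eq_right h.le], h⟩

/-- Gauss's lemma for a quadratic polynomial, one half -/
private theorem gauss {x y : F} {c : ℚ} (h1 : LB u c 1) (hs : LB u c (x + y))
    (hp : LB u c (x * y)) : c ≤ lm u x + lm u y := by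
  have hc : c ≤ 0 := by
    have := (LB_iff (u := u) (one_ne_zero : (1 : F) ≠ 0)).mp h1
    rwa [u.one] at this
  rcases lm_cases (u := u) x with ⟨hx, hx'⟩ | ⟨hx, hx', hx''⟩
  · rcases lm_cases (u := u) y with ⟨hy, hy'⟩ | ⟨hy, hy', hy''⟩
    · rw [hx, hy]; linarith
    · rw [hx, hy', zero_add]
      have h0 : LB u (min c 0) y := by
        have h2 := LB_sub (LB_mono hs (min_le_left c 0)) (LB_mono hx' (min_le_right c 0))
        have e : x + y - x = y := by ring
        rwa [e] at h2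
      rw [LB_iff hy] at h0
      rwa [min_eq_left hc] at h0
  · rcases lm_cases (u := u) y with ⟨hy, hy'⟩ | ⟨hy, hy', hy''⟩
    · rw [hx', hy, add_zero]
      have h0 : LB u (min c 0) x := by
        have h2 := LB_sub (LB_mono hs (min_le_left c 0)) (LB_mono hy' (min_le_right c 0))
        have e : x + y - y = x := by ring
        rwa [e] at h2
      rw [LB_iff hx] at h0
      rwa [min_eq_left hc] at h0
    · rw [LB_iff (mul_ne_zero hx hy), u.mul hx hy] at hp
      rw [hx', hy']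
      exact hp

/-- Gauss's lemma for a quadratic polynomial, the other half -/
private theorem gauss' (x y : F) : LB u (lm u x + lm u y) 1 ∧ LB u (lm u x + lm u y) (x + y) ∧
    LB u (lm u x + lm u y) (x * y) := by
  have hx := lm_le (u := u) x
  have hy := lm_le (u := u) y
  refine ⟨LB_mono LB_one (by linarith), LB_add (LB_mono (LB_lm x) (by linarith))
    (LB_mono (LB_lm y) (by linarith)), LB_mul (LB_lm x) (LB_lm y)⟩

/-- an integral multiple of a product of two elements bounded by `c` -/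
private theorem LB_q {c : ℚ} {k x y : F} (hk : LB u 0 k) (hx : LB u c x) (hy : LB u c y) :
    LB u (2 * c) (k * (x * y)) := by
  have h := LB_mul hk (LB_mul hx hy)
  have e : (0 : ℚ) + (c + c) = 2 * c := by ring
  rwa [e] at h

/-- the core -/
private theorem core {A B : F} (hA : LB u 0 A) (hB : LB u 0 B)
    (hΔ : LB u 0 (-64 * A ^ 3 * B - 432 * B ^ 2)⁻¹)
    (hΔ0 : -64 * A ^ 3 * B - 432 * B ^ 2 ≠ 0) (x y : F) :
    (LB u (2 * (lm u x + lm u y)) ((x - y) ^ 2) ∧
      LB u (2 * (lm u x + lm u y)) (2 * (x * y) * (x + y) + 4 * A * (x * y) + 4 * B) ∧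
      LB u (2 * (lm u x + lm u y)) ((x * y) ^ 2 - 4 * B * (x + y) - 4 * A * B)) ∧
    ∀ d : ℚ, LB u d ((x - y) ^ 2) → LB u d (2 * (x * y) * (x + y) + 4 * A * (x * y) + 4 * B) →
      LB u d ((x * y) ^ 2 - 4 * B * (x + y) - 4 * A * B) → d ≤ 2 * (lm u x + lm u y) := by
  obtain ⟨g1, gs, gp⟩ := gauss' (u := u) x y
  set c := lm u x + lm u y with hc
  have n (k : ℕ) : LB u 0 (k : F) := LB_nat k
  have m {k l : F} (hk : LB u 0 k) (hl : LB u 0 l) : LB u 0 (k * l) := by
    have := LB_mul hk hl; rwa [add_zero] at this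
  have N4 : LB u 0 (4 : F) := by exact_mod_cast n 4
  have N2 : LB u 0 (2 : F) := by exact_mod_cast n 2
  have D : (x - y) ^ 2 = 1 * ((x + y) * (x + y)) - 4 * ((x * y) * 1) := by ring
  refine ⟨⟨?_, ?_, ?_⟩, ?_⟩
  · rw [D]
    exact LB_sub (LB_q LB_one gs gs) (LB_q N4 gp g1)
  · have e : 2 * (x * y) * (x + y) + 4 * A * (x * y) + 4 * B =
        2 * ((x * y) * (x + y)) + (4 * A) * ((x * y) * 1) + (4 * B) * (1 * 1) := by
      ring
    rw [e]
    exact LB_add (LB_add (LB_q N2 gp gs) (LB_q (m N4 hA) gp g1)) (LB_q (m N4 hB) g1 g1)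
  · have e : (x * y) ^ 2 - 4 * B * (x + y) - 4 * A * B =
        1 * ((x * y) * (x * y)) - (4 * B) * ((x + y) * 1) - (4 * (A * B)) * (1 * 1) := by
      ring
    rw [e]
    exact LB_sub (LB_sub (LB_q LB_one gp gp) (LB_q (m N4 hB) gs g1)) (LB_q (m N4 (m hA hB)) g1 g1)
  · intro d hD hS hT
    have hDs : (x - y) ^ 2 = (x + y) ^ 2 - 4 * (x * y) := by ring
    rw [hDs] at hD
    have key : ∀ e : ℚ, LB u e 1 → LB u e (x + y) → LB u e (x * y) → e ≤ c :=
      fun e h1 h2 h3 => gauss h1 h2 h3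
    clear hDs D hc
    clear_value c
    generalize x * y = s at *
    generalize x + y = t at *
    -- the final step
    have fin {z c0 c1 c2 : F} (h0 : LB u (2 * c) c0) (h1 : LB u (2 * c) c1) (h2 : LB u (2 * c) c2)
        (e : c0 * (s ^ 2 - 4 * B * t - 4 * A * B) + c1 * (2 * s * t + 4 * A * s + 4 * B) +
          c2 * (t ^ 2 - 4 * s) = (-64 * A ^ 3 * B - 432 * B ^ 2) * z ^ 4) :
        LB u ((2 * c + d) / 4) z := by
      have hz : z ^ 4 = (-64 * A ^ 3 * B - 432 * B ^ 2)⁻¹ * (c0 * (s ^ 2 - 4 * B * t - 4 * A * B) +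
          c1 * (2 * s * t + 4 * A * s + 4 * B) + c2 * (t ^ 2 - 4 * s)) := by
        rw [e, ← mul_assoc, inv_mul_cancel₀ hΔ0, one_mul]
      apply LB_pow4
      rw [hz]
      have := LB_mul hΔ (LB_add (LB_add (LB_mul h0 hT) (LB_mul h1 hS)) (LB_mul h2 hD))
      refine LB_mono this (by linarith)
    have A2 := m hA hA
    have A3 := m hA A2
    have B2 := m hB hB
    have B3 := m hB B2
    have K (k : ℕ) {z : F} (hz : LB u 0 z) : LB u 0 ((k : F) * z) := m (n k) hz
    have k1 : LB u ((2 * c + d) / 4) s := by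
      refine fin (z := s)
        (c0 := -((((64 : ℕ) : F) * (A * (A * A) * B) + ((432 : ℕ) : F) * (B * B)) * (s * s))
          - (((160 : ℕ) : F) * (A * (B * B))) * (s * t)
          - (((64 : ℕ) : F) * ((A * A) * (B * B))) * (s * 1) - (((192 : ℕ) : F) * (B * (B * B))) * (t * 1))
        (c1 := (((80 : ℕ) : F) * (A * (B * B))) * (s * s) - (((32 : ℕ) : F) * ((A * A) * (B * B))) * (s * t)
          - (((64 : ℕ) : F) * ((A * (A * A)) * (B * B))) * (s * 1)
          - (((192 : ℕ) : F) * (B * (B * B))) * (t * t) - (((192 : ℕ) : F) * (A * (B * (B * B)))) * (t * 1))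
        (c2 := (((64 : ℕ) : F) * ((A * A) * (B * B))) * (s * s) + (((384 : ℕ) : F) * (B * (B * B))) * (s * t)
          + (((512 : ℕ) : F) * (A * (B * (B * B)))) * (s * 1))
        ?_ ?_ ?_ ?_
      · exact LB_sub (LB_sub (LB_sub (LB_neg (LB_q (LB_add (K _ (m A3 hB)) (K _ B2)) gp gp))
          (LB_q (K _ (m hA B2)) gp gs)) (LB_q (K _ (m A2 B2)) gp g1)) (LB_q (K _ B3) gs g1)
      · exact LB_sub (LB_sub (LB_sub (LB_sub (LB_q (K _ (m hA B2)) gp gp) (LB_q (K _ (m A2 B2)) gp gs))
          (LB_q (K _ (m A3 B2)) gp g1)) (LB_q (K _ B3) gs gs)) (LB_q (K _ (m hA B3)) gs g1)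
      · exact LB_add (LB_add (LB_q (K _ (m A2 B2)) gp gp) (LB_q (K _ B3) gp gs))
          (LB_q (K _ (m hA B3)) gp g1)
      · push_cast; ring
    have k2 : LB u ((2 * c + d) / 4) t := by
      refine fin (z := t)
        (c0 := (((384 : ℕ) : F) * B) * (s * t) - (((64 : ℕ) : F) * (A * B)) * (t * t))
        (c1 := -((((192 : ℕ) : F) * B) * (s * s)) + (((128 : ℕ) : F) * (A * B)) * (s * t)
          - (((64 : ℕ) : F) * (A * A * B)) * (t * t))
        (c2 := -((((192 : ℕ) : F) * (A * B)) * (s * s)) + (((128 : ℕ) : F) * (A * A * B)) * (s * t)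
          - (((192 : ℕ) : F) * (B * B)) * (s * 1)
          - (((64 : ℕ) : F) * (A * (A * A) * B) + ((432 : ℕ) : F) * (B * B)) * (t * t)
          - (((256 : ℕ) : F) * (A * (B * B))) * (t * 1))
        ?_ ?_ ?_ ?_
      · exact LB_sub (LB_q (K _ hB) gp gs) (LB_q (K _ (m hA hB)) gs gs)
      · exact LB_sub (LB_add (LB_neg (LB_q (K _ hB) gp gp)) (LB_q (K _ (m hA hB)) gp gs))
          (LB_q (K _ (m A2 hB)) gs gs)
      · exact LB_sub (LB_sub (LB_sub (LB_add (LB_neg (LB_q (K _ (m hA hB)) gp gp))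
          (LB_q (K _ (m A2 hB)) gp gs)) (LB_q (K _ B2) gp g1))
          (LB_q (LB_add (K _ (m A3 hB)) (K _ B2)) gs gs)) (LB_q (K _ (m hA B2)) gs g1)
      · push_cast; ring
    have k3 : LB u ((2 * c + d) / 4) 1 := by
      refine fin (z := 1)
        (c0 := -((((12 : ℕ) : F) * 1) * (t * t)) - (((16 : ℕ) : F) * A) * (t * 1)
          + (((16 : ℕ) : F) * (A * A)) * (1 * 1))
        (c1 := (((6 : ℕ) : F) * 1) * (s * t) - (((4 : ℕ) : F) * A) * (s * 1)
          - (((108 : ℕ) : F) * B) * (1 * 1))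
        (c2 := -((((48 : ℕ) : F) * B) * (t * 1)) - (((112 : ℕ) : F) * (A * B)) * (1 * 1))
        ?_ ?_ ?_ ?_
      · exact LB_add (LB_sub (LB_neg (LB_q (K _ LB_one) gs gs)) (LB_q (K _ hA) gs g1))
          (LB_q (K _ A2) g1 g1)
      · exact LB_sub (LB_sub (LB_q (K _ LB_one) gp gs) (LB_q (K _ hA) gp g1)) (LB_q (K _ hB) g1 g1)
      · exact LB_sub (LB_neg (LB_q (K _ hB) gs g1)) (LB_q (K _ (m hA hB)) g1 g1)
      · push_cast; ring
    have := key _ k3 k2 k1
    linarith

end

section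

variable {R : Type} [CommRing R] {a b : R} {F : Type} [Field F] [Algebra R F]

private theorem lam_lm (u : QV F) (P : Pt (SW a b) F) : lam u P = -(lm u (xc P)) / 2 := by
  unfold lam lm
  by_cases h : xc P = 0
  · rw [if_pos h, if_pos h]; ring
  · rw [if_neg h, if_neg h]
    rcases le_total 0 (u.v (xc P)) with h' | h'
    · rw [min_eq_left h', max_eq_left (by linarith)]
      norm_num
    · rw [min_eq_right h', max_eq_right (by linarith)]

private theorem eqn {x y : F} (h : ((SW a b).baseChange F).toAffine.Nonsingular x y) :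
    y ^ 2 = x ^ 3 + algebraMap R F a * x ^ 2 + algebraMap R F b := by
  have := h.1
  rw [WeierstrassCurve.Affine.equation_iff] at this
  simpa [SW] using this

private theorem ca1 : ((SW a b).baseChange F).toAffine.a₁ = 0 := map_zero _

private theorem ca2 : ((SW a b).baseChange F).toAffine.a₂ = algebraMap R F a := rfl

private theorem ca3 : ((SW a b).baseChange F).toAffine.a₃ = 0 := map_zero _

private theorem ca4 : ((SW a b).baseChange F).toAffine.a₄ = 0 := map_zero _

private theorem disc : algebraMap R F (SW a b).Δ =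
    -64 * (algebraMap R F a) ^ 3 * algebraMap R F b - 432 * (algebraMap R F b) ^ 2 := by
  simp only [WeierstrassCurve.Δ, WeierstrassCurve.b₂, WeierstrassCurve.b₄, WeierstrassCurve.b₆,
    WeierstrassCurve.b₈, SW]
  simp only [map_add, map_sub, map_mul, map_pow, map_neg, map_zero, map_ofNat]
  ring

private theorem LB_alg {u : QV F} (hu : ∀ r : R, algebraMap R F r ≠ 0 → u.v (algebraMap R F r) = 0)
    (r : R) : LB u 0 (algebraMap R F r) := by
  by_cases h : algebraMap R F r = 0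
  · exact Or.inl h
  · exact Or.inr (hu r h).ge

private theorem LB_disc {u : QV F} (hu : ∀ r : R, algebraMap R F r ≠ 0 → u.v (algebraMap R F r) = 0)
    (hΔ : algebraMap R F (SW a b).Δ ≠ 0) :
    LB u 0 (-64 * (algebraMap R F a) ^ 3 * algebraMap R F b - 432 * (algebraMap R F b) ^ 2)⁻¹ := by
  rw [← disc]
  right
  rw [u.inv hΔ, hu _ hΔ, neg_zero]

/-- LP: parallelogram law for the local height, good reduction -/
theorem LP {R : Type} [CommRing R] (a b : R) {F : Type} [Field F] [Algebra R F]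
    (u : QV F) (hu : ∀ r : R, algebraMap R F r ≠ 0 → u.v (algebraMap R F r) = 0)
    (h2 : (2 : F) ≠ 0) (hΔ : algebraMap R F (SW a b).Δ ≠ 0) (P Q : Pt (SW a b) F)
    (hP : P ≠ 0) (hQ : Q ≠ 0) (h1 : P ≠ Q) (h3 : P ≠ -Q) :
    lam u (P + Q) + lam u (P - Q) = 2 * lam u P + 2 * lam u Q + u.v (xc P - xc Q) := by
  rcases P with _ | ⟨x, y, hp⟩
  · exact absurd rfl hP
  rcases Q with _ | ⟨x', y', hq⟩
  · exact absurd rfl hQ
  have hx : x ≠ x' := by
    intro hx
    rcases WeierstrassCurve.Affine.Y_eq_of_X_eq hp.1 hq.1 hx with h | h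
    · apply h1; subst hx; subst h; rfl
    · apply h3
      rw [WeierstrassCurve.Affine.Point.neg_some]
      subst hx; subst h; rfl
  have e1 := eqn hp
  have e2 := eqn hq
  have hD : x - x' ≠ 0 := sub_ne_zero.mpr hx
  obtain ⟨A, hA⟩ : ∃ A, A = algebraMap R F a := ⟨_, rfl⟩
  obtain ⟨B, hB⟩ : ∃ B, B = algebraMap R F b := ⟨_, rfl⟩
  rw [← hA, ← hB] at e1 e2
  have s3 : (x - x') ^ 2 * xc (WeierstrassCurve.Affine.Point.some x y hp +
      WeierstrassCurve.Affine.Point.some x' y' hq : Pt (SW a b) F) =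
      (y - y') ^ 2 - (A + x + x') * (x - x') ^ 2 := by
    rw [WeierstrassCurve.Affine.Point.add_of_X_ne hx]
    change (x - x') ^ 2 * WeierstrassCurve.Affine.addX _ _ _ _ = _
    rw [WeierstrassCurve.Affine.slope_of_X_ne hx, WeierstrassCurve.Affine.addX]
    rw [ca1, ca2, ← hA]
    field_simp
    ring
  have s4 : (x - x') ^ 2 * xc (WeierstrassCurve.Affine.Point.some x y hp -
      WeierstrassCurve.Affine.Point.some x' y' hq : Pt (SW a b) F) =
      (y + y') ^ 2 - (A + x + x') * (x - x') ^ 2 := by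
    have e0 : (WeierstrassCurve.Affine.Point.some x y hp -
      WeierstrassCurve.Affine.Point.some x' y' hq : Pt (SW a b) F) =
      WeierstrassCurve.Affine.Point.some x y hp +
      -WeierstrassCurve.Affine.Point.some x' y' hq := sub_eq_add_neg _ _
    rw [e0, WeierstrassCurve.Affine.Point.neg_some,
      WeierstrassCurve.Affine.Point.add_of_X_ne hx]
    change (x - x') ^ 2 * WeierstrassCurve.Affine.addX _ _ _ _ = _
    rw [WeierstrassCurve.Affine.slope_of_X_ne hx, WeierstrassCurve.Affine.addX,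
      WeierstrassCurve.Affine.negY]
    rw [ca1, ca2, ca3, ← hA]
    field_simp
    ring
  simp only [lam_lm]
  generalize xc (WeierstrassCurve.Affine.Point.some x y hp +
      WeierstrassCurve.Affine.Point.some x' y' hq : Pt (SW a b) F) = x3 at *
  generalize xc (WeierstrassCurve.Affine.Point.some x y hp -
      WeierstrassCurve.Affine.Point.some x' y' hq : Pt (SW a b) F) = x4 at *
  change -(lm u x3) / 2 + -(lm u x4) / 2 = 2 * (-(lm u x) / 2) + 2 * (-(lm u x') / 2) + u.v (x - x')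
  have S : (x - x') ^ 2 * (x3 + x4) = 2 * (x * x') * (x + x') + 4 * A * (x * x') + 4 * B := by
    rw [mul_add, s3, s4]
    linear_combination 2 * e1 + 2 * e2
  have T : (x - x') ^ 2 * (x3 * x4) = (x * x') ^ 2 - 4 * B * (x + x') - 4 * A * B := by
    apply mul_left_cancel₀ (pow_ne_zero 2 hD)
    have : (x - x') ^ 2 * ((x - x') ^ 2 * (x3 * x4)) = ((x - x') ^ 2 * x3) * ((x - x') ^ 2 * x4) := by
      ring
    rw [this, s3, s4]
    have e3 : y ^ 2 - y' ^ 2 = (x - x') * (x ^ 2 + x * x' + x' ^ 2 + A * (x + x')) := by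
      rw [e1, e2]; ring
    have : ((y - y') ^ 2 - (A + x + x') * (x - x') ^ 2) * ((y + y') ^ 2 - (A + x + x') * (x - x') ^ 2)
        = (y ^ 2 - y' ^ 2) ^ 2 - (A + x + x') * (x - x') ^ 2 * (2 * y ^ 2 + 2 * y' ^ 2)
          + ((A + x + x') * (x - x') ^ 2) ^ 2 := by ring
    rw [this, e3, e1, e2]
    ring
  have cr := core (u := u) (A := A) (B := B) (hA ▸ LB_alg hu a) (hB ▸ LB_alg hu b)
    (hA ▸ hB ▸ LB_disc hu hΔ) (by rw [hA, hB, ← disc]; exact hΔ) x x'
  obtain ⟨⟨c1, c2, c3⟩, c4⟩ := cr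
  have hv : u.v ((x - x') ^ 2) = 2 * u.v (x - x') := by rw [u.pow hD]; norm_num
  obtain ⟨g1, g2, g3⟩ := gauss' (u := u) x3 x4
  have hD2 := pow_ne_zero 2 hD
  have i1 := c4 _ (by have := LB_mul' (u := u) hD2 g1; rwa [mul_one] at this)
    (by have := LB_mul' (u := u) hD2 g2; rwa [S] at this)
    (by have := LB_mul' (u := u) hD2 g3; rwa [T] at this)
  have i2 := gauss (u := u) (x := x3) (y := x4)
    (LB_of_mul (u := u) hD2 (by rw [mul_one]; exact c1))
    (LB_of_mul (u := u) hD2 (by rw [S]; exact c2))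
    (LB_of_mul (u := u) hD2 (by rw [T]; exact c3))
  rw [hv] at i1 i2
  linarith

/-- LP2: duplication, good reduction -/
theorem LP2 {R : Type} [CommRing R] (a b : R) {F : Type} [Field F] [Algebra R F]
    (u : QV F) (hu : ∀ r : R, algebraMap R F r ≠ 0 → u.v (algebraMap R F r) = 0)
    (h2 : (2 : F) ≠ 0) (hΔ : algebraMap R F (SW a b).Δ ≠ 0) (P : Pt (SW a b) F)
    (hP : P + P ≠ 0) :
    lam u (P + P) = 4 * lam u P + u.v (yc P) := by
  rcases P with _ | ⟨x, y, hp⟩
  · exact absurd (by rfl) hP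
  have hy : y ≠ ((SW a b).baseChange F).toAffine.negY x y := by
    intro h
    apply hP
    exact WeierstrassCurve.Affine.Point.add_self_of_Y_eq h
  have hy0 : y ≠ 0 := by
    intro h
    apply hy
    rw [WeierstrassCurve.Affine.negY, h]
    simp [SW]
  have e1 := eqn hp
  obtain ⟨A, hA⟩ : ∃ A, A = algebraMap R F a := ⟨_, rfl⟩
  obtain ⟨B, hB⟩ : ∃ B, B = algebraMap R F b := ⟨_, rfl⟩
  rw [← hA, ← hB] at e1
  have s3 : (4 * y ^ 2) * xc (WeierstrassCurve.Affine.Point.some x y hp +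
      WeierstrassCurve.Affine.Point.some x y hp : Pt (SW a b) F) =
      (x * x) ^ 2 - 4 * B * (x + x) - 4 * A * B := by
    rw [WeierstrassCurve.Affine.Point.add_self_of_Y_ne hy]
    change (4 * y ^ 2) * WeierstrassCurve.Affine.addX _ _ _ _ = _
    rw [WeierstrassCurve.Affine.slope_of_Y_ne rfl hy, WeierstrassCurve.Affine.addX,
      WeierstrassCurve.Affine.negY]
    rw [ca1, ca2, ca3, ca4, ← hA]
    have h4 : y - (-y - 0 * x - 0) = 2 * y := by ring
    have h5 : (3 * x ^ 2 + 2 * A * x + 0 - 0 * y) = 3 * x ^ 2 + 2 * A * x := by ring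
    rw [h4, h5]
    field_simp
    linear_combination (-(16 * A + 32 * x)) * e1
  simp only [lam_lm]
  generalize xc (WeierstrassCurve.Affine.Point.some x y hp +
      WeierstrassCurve.Affine.Point.some x y hp : Pt (SW a b) F) = x3 at *
  change -(lm u x3) / 2 = 4 * (-(lm u x) / 2) + u.v y
  have h4 : (4 : F) ≠ 0 := by
    have : (4 : F) = 2 * 2 := by norm_num
    rw [this]; exact mul_ne_zero h2 h2
  have hv4 : u.v (4 : F) = 0 := by
    have h := hu 4 (by rw [map_ofNat]; exact h4)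
    rwa [map_ofNat] at h
  have hE : (4 * y ^ 2 : F) ≠ 0 := mul_ne_zero h4 (pow_ne_zero 2 hy0)
  have hv : u.v (4 * y ^ 2) = 2 * u.v y := by
    rw [u.mul h4 (pow_ne_zero 2 hy0), hv4, u.pow hy0]; norm_num
  have S : (4 * y ^ 2 : F) = 2 * (x * x) * (x + x) + 4 * A * (x * x) + 4 * B := by
    rw [e1]; ring
  have cr := core (u := u) (A := A) (B := B) (hA ▸ LB_alg hu a) (hB ▸ LB_alg hu b)
    (hA ▸ hB ▸ LB_disc hu hΔ) (by rw [hA, hB, ← disc]; exact hΔ) x x
  obtain ⟨⟨c1, c2, c3⟩, c4⟩ := cr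
  have g1 : LB u (lm u x3) 1 := LB_mono LB_one (lm_le x3)
  have i1 := c4 (lm u x3 + u.v (4 * y ^ 2)) (by rw [sub_self]; left; norm_num)
    (by have := LB_mul' (u := u) hE g1; rw [mul_one] at this; rwa [S] at this ⊢)
    (by have := LB_mul' (u := u) hE (LB_lm (u := u) x3); rwa [s3] at this)
  have i2 : 2 * (lm u x + lm u x) - u.v (4 * y ^ 2) ≤ lm u x3 := by
    have j1 : LB u (2 * (lm u x + lm u x) - u.v (4 * y ^ 2)) (1 : F) :=
      LB_of_mul (u := u) hE (by rw [mul_one, S]; exact c2)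
    have j2 : LB u (2 * (lm u x + lm u x) - u.v (4 * y ^ 2)) x3 :=
      LB_of_mul (u := u) hE (by rw [s3]; exact c3)
    have j3 := (LB_iff (u := u) (one_ne_zero : (1 : F) ≠ 0)).mp j1
    rw [u.one] at j3
    rcases lm_cases (u := u) x3 with ⟨h, -⟩ | ⟨h0, h, -⟩
    · rw [h]; exact j3
    · rw [h]; exact (LB_iff h0).mp j2
  rw [hv] at i1 i2
  linarith

end

end Pool.Agent.VM
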